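import Pool.Agent.Helper18.NF.Stmts

/-!
# BAD : behaviour of `B (δ^j F) / B (F)`, `F = δ^i f`, at one place for all large `i`
-/

set_option autoImplicit false

namespace Pool.Agent.Helper18.NF

open Pool.Agent.Helper14.BSC Polynomial

section

variable {k Ω : Type} [Field k] [Field Ω] [Algebra k Ω] [CharZero k] [IsAlgClosed Ω] {D : Sec k Ω}
  {A B : k[X]} {p : ℕ} [Fact p.Prime] {σ : k →+* ℂ_[p]} {P : Place D p σ}

omit [CharZero k] [IsAlgClosed Ω] in
theorem bad_one : fin_Val P (1 : LL D) 1 := by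
  have h := fin_const P 1
  rw [map_one, map_one] at h
  exact h

omit [CharZero k] in
theorem bad_mu (h : Dyn A B) : σ (A.leadingCoeff / B.leadingCoeff) ≠ 0 := by
  have hA : A ≠ 0 := by
    rintro rfl
    have := h.deg
    simp at this
  have hB : B ≠ 0 := by
    rintro rfl
    have := h.pos
    simp at this
  rw [_root_.map_ne_zero]
  exact div_ne_zero (leadingCoeff_ne_zero.2 hA) (leadingCoeff_ne_zero.2 hB)

/-- once infinite, always infinite -/
theorem bad_inf (hD : ST_DLB) (hP : ST_PLV) (h : Dyn A B) {x : LL D} (hx : NC D x)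
    (hC : x ∉ P.C) (i : ℕ) : (dl A B)^[i] x ∉ P.C := by
  induction i with
  | zero => exact hC
  | succ i ih =>
    rw [Function.iterate_succ_apply']
    exact ((hP k Ω D A B h p σ P _ (((hD k Ω D).2 A B h).1 x hx i)).2.2.2 ih).1

theorem bad_B (hD : ST_DLB) (h : Dyn A B) {x : LL D} (hx : NC D x) : aeval x B ≠ 0 := by
  apply (hD k Ω D).1 x hx
  rintro rfl
  have := h.pos
  simp at this

/-- the values at infinity -/
theorem bad_gm (hD : ST_DLB) (hP : ST_PLV) (h : Dyn A B) {F : LL D} (hF : NC D F)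
    (hC : F ∉ P.C) (j : ℕ) : fin_Val P (Gm D A B F j)
      ((σ (A.leadingCoeff / B.leadingCoeff) ^ B.natDegree) ^ j) := by
  induction j with
  | zero =>
    have h1 : Gm D A B F 0 = 1 := div_self (bad_B hD h hF)
    rw [h1, pow_zero]
    exact bad_one
  | succ j ih =>
    have hN : NC D ((dl A B)^[j] F) := ((hD k Ω D).2 A B h).1 F hF j
    have h1 : Gm D A B F (j + 1) = Gm D A B F j *
        (aeval (dl A B ((dl A B)^[j] F)) B / aeval ((dl A B)^[j] F) B) := by
      rw [Gm, Gm, Function.iterate_succ_apply']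
      have h2 := bad_B hD h hN
      have h3 := bad_B hD h hF
      field_simp
    rw [h1, pow_succ]
    exact fin_mul ih ((hP k Ω D A B h p σ P _ hN).2.2.2 (bad_inf hD hP h hF hC j)).2

/-- the denominators do not vanish when the next iterate is finite -/
theorem bad_ne (hP : ST_PLV) (h : Dyn A B) {x : LL D} (hx : NC D x) {z : ℂ_[p]}
    (hz : fin_Val P x z) (hC : dl A B x ∈ P.C) : (B.map σ).eval z ≠ 0 := by
  intro h0
  exact (hP k Ω D A B h p σ P x hx).2.2.1 z hz h0 hC

/-- the values at finite places -/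
theorem bad_gmf (hP : ST_PLV) (hD : ST_DLB) (h : Dyn A B) {F : LL D} (hF : NC D F) (j : ℕ)
    {z z' : ℂ_[p]} (hz : fin_Val P F z) (hz' : fin_Val P ((dl A B)^[j] F) z')
    (h0 : (B.map σ).eval z ≠ 0) :
    fin_Val P (Gm D A B F j) ((B.map σ).eval z' / (B.map σ).eval z) := by
  have hN : NC D ((dl A B)^[j] F) := ((hD k Ω D).2 A B h).1 F hF j
  exact fin_div ((hP k Ω D A B h p σ P _ hN).1 B z' hz') ((hP k Ω D A B h p σ P _ hF).1 B z hz) h0

end

theorem st_BAD (hD : ST_DLB) (hP : ST_PLV) : ST_BAD := by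
  intro k Ω _ _ _ _ _ D A B h f hf p _ σ P
  by_cases hall : ∀ m, (dl A B)^[m] f ∈ P.C
  · refine ⟨0, fun i _ j => ?_⟩
    have hF : NC D ((dl A B)^[i] f) := ((hD k Ω D).2 A B h).1 f hf i
    have hFj : NC D ((dl A B)^[j] ((dl A B)^[i] f)) := ((hD k Ω D).2 A B h).1 _ hF j
    have hz : fin_Val P ((dl A B)^[i] f) (P.φ ⟨_, hall i⟩) := ⟨hall i, rfl⟩
    have hmem : (dl A B)^[j] ((dl A B)^[i] f) ∈ P.C := by
      rw [← Function.iterate_add_apply]
      exact hall _
    have hz' : fin_Val P ((dl A B)^[j] ((dl A B)^[i] f)) (P.φ ⟨_, hmem⟩) := ⟨hmem, rfl⟩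
    have h1 : (B.map σ).eval (P.φ ⟨_, hall i⟩) ≠ 0 := by
      apply bad_ne hP h hF hz
      rw [← Function.iterate_succ_apply' (dl A B)]
      exact hall _
    have h2 : (B.map σ).eval (P.φ ⟨_, hmem⟩) ≠ 0 := by
      apply bad_ne hP h hFj hz'
      rw [← Function.iterate_succ_apply' (dl A B), ← Function.iterate_add_apply]
      exact hall _
    exact ⟨_, bad_gmf hP hD h hF j hz hz' h1, div_ne_zero h2 h1⟩
  · push Not at hall
    obtain ⟨m, hm⟩ := hall
    refine ⟨m, fun i hi j => ?_⟩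
    have hF : NC D ((dl A B)^[i] f) := ((hD k Ω D).2 A B h).1 f hf i
    have hC : (dl A B)^[i] f ∉ P.C := by
      have h1 := bad_inf (P := P) hD hP h (((hD k Ω D).2 A B h).1 f hf m) hm (i - m)
      rw [← Function.iterate_add_apply, Nat.sub_add_cancel hi] at h1
      exact h1
    exact ⟨_, bad_gm hD hP h hF hC j, pow_ne_zero _ (pow_ne_zero _ (bad_mu h))⟩

end Pool.Agent.Helper18.NF
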