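import Pool.Agent.Helper18.NF.Stmts

/-!
# DLB : nonconstant elements are transcendental, iterates of nonconstant elements are nonconstant
-/

set_option autoImplicit false

namespace Pool.Agent.Helper18.NF

open Pool.Agent.Helper14.BSC Polynomial

section

variable {k Ω : Type} [Field k] [Field Ω] [Algebra k Ω]

/-- nonconstant elements of the fixed field are transcendental -/
theorem dlb_tr (hB : Pool.Agent.Helper14.BSC.ST_BOT) [CharZero k] [IsAlgClosed Ω] {D : Sec k Ω}
    {f : LL D} (hf : NC D f) {G : k[X]} (hG : G ≠ 0) : aeval f G ≠ 0 := by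
  intro h0
  have halg : IsAlgebraic k (f : Ω) := by
    refine ⟨G, hG, ?_⟩
    have h1 := congrArg (LL D).val h0
    rw [← Polynomial.aeval_algHom_apply, map_zero] at h1
    exact h1
  have hmem : (f : Ω) ∈ Acl k Ω := (mem_algebraicClosure_iff (F := k) (E := Ω)).2 halg
  have hFF : (⟨(f : Ω), hmem⟩ : Acl k Ω) ∈ FF (∅ : Set (Acl k Ω)) := by
    rw [← coe_mem_NN (D := D)]
    exact f.2
  obtain ⟨c, hc⟩ := hB k Ω _ hFF
  apply hf c
  apply Subtype.ext
  have h2 := congrArg (fun y : Acl k Ω => (y : Ω)) hc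
  exact h2

theorem dlb_ne {A B : k[X]} (h : Dyn A B) : B ≠ 0 := by
  rintro rfl
  have := h.pos
  simp at this

theorem dlb_neA {A B : k[X]} (h : Dyn A B) : A ≠ 0 := by
  rintro rfl
  have := h.deg
  simp at this

/-- one step -/
theorem dlb_step (hB : Pool.Agent.Helper14.BSC.ST_BOT) [CharZero k] [IsAlgClosed Ω] {D : Sec k Ω}
    {A B : k[X]} (h : Dyn A B) {f : LL D} (hf : NC D f) : NC D (dl A B f) := by
  intro c hc
  have hb : aeval f B ≠ 0 := dlb_tr hB hf (dlb_ne h)
  have h1 : aeval f (A - C c * B) = 0 := by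
    rw [map_sub, map_mul, aeval_C, sub_eq_zero]
    rw [dl, div_eq_iff hb] at hc
    exact hc
  refine dlb_tr hB hf ?_ h1
  intro h2
  rw [sub_eq_zero] at h2
  have h3 : A.natDegree ≤ B.natDegree := by
    rw [h2]
    exact natDegree_C_mul_le c B
  have := h.deg
  omega

/-- iterates of constants are constants -/
theorem dlb_const {D : Sec k Ω} (A B : k[X]) (c : k) (N : ℕ) :
    ∃ c' : k, (dl A B)^[N] (algebraMap k (LL D) c) = algebraMap k (LL D) c' := by
  induction N with
  | zero => exact ⟨c, rfl⟩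
  | succ N ih =>
    obtain ⟨c', hc'⟩ := ih
    refine ⟨A.eval c' / B.eval c', ?_⟩
    rw [Function.iterate_succ_apply', hc', dl, aeval_algebraMap_apply, aeval_algebraMap_apply,
      map_div₀]
    rfl

end

theorem st_DLB (hB : Pool.Agent.Helper14.BSC.ST_BOT) : ST_DLB := by
  intro k Ω _ _ _ _ _ D
  refine ⟨fun f hf G hG => dlb_tr hB hf hG, fun A B hAB => ⟨?_, ?_, ?_⟩⟩
  · intro f hf i
    induction i with
    | zero => exact hf
    | succ i ih =>
      rw [Function.iterate_succ_apply']
      exact dlb_step hB hAB ih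
  · intro f g N hf hgf c hc
    rw [hc] at hgf
    obtain ⟨c', hc'⟩ := dlb_const (D := D) A B c N
    rw [hc'] at hgf
    exact hf c' hgf.symm
  · intro f hf i N
    rcases le_total N i with h | h
    · refine ⟨(dl A B)^[i - N] f, ?_⟩
      rw [← Function.iterate_add_apply, Nat.add_sub_cancel' h]
    · obtain ⟨g, hg⟩ := hf (N - i)
      refine ⟨g, ?_⟩
      rw [← hg, ← Function.iterate_add_apply, Nat.add_sub_cancel' h]

end Pool.Agent.Helper18.NF
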