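import Pool.Agent.Helper18.NF.Stmts

/-!
# PUL : pulling back polynomials under iterates of `δ`
-/

set_option autoImplicit false

namespace Pool.Agent.Helper18.NF

open Pool.Agent.Helper14.BSC Polynomial

/-- the numerator of `G (A / B)` -/
noncomputable def pul_num {k : Type} [Field k] (A B G : k[X]) : k[X] :=
  ∑ i ∈ Finset.range (G.natDegree + 1), C (G.coeff i) * A ^ i * B ^ (G.natDegree - i)

theorem pul_num_eval {k F : Type} [Field k] [Field F] (σ : k →+* F) (A B G : k[X]) (z : F)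
    (hz : (B.map σ).eval z ≠ 0) :
    ((pul_num A B G).map σ).eval z =
      (B.map σ).eval z ^ G.natDegree * (G.map σ).eval ((A.map σ).eval z / (B.map σ).eval z) := by
  rw [eval_map] at hz
  rw [eval_map, eval_map, eval_map, eval_map, pul_num, eval₂_finsetSum, eval₂_eq_sum_range (p := G),
    Finset.mul_sum]
  apply Finset.sum_congr rfl
  intro i hi
  have hi' : i ≤ G.natDegree := Nat.lt_succ_iff.1 (Finset.mem_range.1 hi)
  rw [eval₂_mul, eval₂_mul, eval₂_C, eval₂_pow, eval₂_pow, div_pow]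
  have h1 : eval₂ σ z B ^ G.natDegree = eval₂ σ z B ^ i * eval₂ σ z B ^ (G.natDegree - i) := by
    rw [← pow_add, Nat.add_sub_cancel' hi']
  rw [h1]
  field_simp

theorem pul_num_ne {k : Type} [Field k] {A B : k[X]} (h : Dyn A B) {G : k[X]} (hG : G ≠ 0) :
    pul_num A B G ≠ 0 := by
  intro h0
  have h1 : pul_num A B G = (∑ i ∈ Finset.range G.natDegree, C (G.coeff i) * A ^ i *
      B ^ (G.natDegree - i)) + C G.leadingCoeff * A ^ G.natDegree := by
    rw [pul_num, Finset.sum_range_succ, Nat.sub_self, pow_zero, mul_one, coeff_natDegree]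
  have h2 : B ∣ ∑ i ∈ Finset.range G.natDegree, C (G.coeff i) * A ^ i * B ^ (G.natDegree - i) := by
    apply Finset.dvd_sum
    intro i hi
    have hi' := Finset.mem_range.1 hi
    exact Dvd.dvd.mul_left (dvd_pow_self B (by omega)) _
  have h3 : B ∣ C G.leadingCoeff * A ^ G.natDegree := by
    rw [h0] at h1
    have h4 : C G.leadingCoeff * A ^ G.natDegree =
        - ∑ i ∈ Finset.range G.natDegree, C (G.coeff i) * A ^ i * B ^ (G.natDegree - i) := by
      rw [eq_neg_iff_add_eq_zero, add_comm]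
      exact h1.symm
    rw [h4]
    exact (dvd_neg).2 h2
  have h5 : IsCoprime B (A ^ G.natDegree) := (IsCoprime.pow_left h.cop).symm
  have h6 : B ∣ C G.leadingCoeff := h5.dvd_of_dvd_mul_right h3
  have h7 : IsUnit (C G.leadingCoeff) := by
    rw [isUnit_C]
    exact (leadingCoeff_ne_zero.2 hG).isUnit
  have h8 : IsUnit B := isUnit_of_dvd_unit h6 h7
  have h9 := natDegree_eq_zero_of_isUnit h8
  have := h.pos
  omega

theorem pul_one (hP : ST_PLV) {k : Type} [Field k] [CharZero k] {A B : k[X]} (h : Dyn A B)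
    {G : k[X]} (hG : G ≠ 0) : ∃ G' : k[X], G' ≠ 0 ∧ ∀ (Ω : Type) [Field Ω] [Algebra k Ω]
      [IsAlgClosed Ω] (D : Sec k Ω) (f : LL D), NC D f → ∀ (p : ℕ) [Fact p.Prime]
      (σ : k →+* ℂ_[p]) (P : Place D p σ), Rt P (dl A B f) G → Rt P f G' := by
  have hB0 : B ≠ 0 := by
    rintro rfl
    have := h.pos
    simp at this
  refine ⟨B * pul_num A B G, mul_ne_zero hB0 (pul_num_ne h hG), ?_⟩
  intro Ω _ _ _ D f hf p _ σ P hR z hz
  rw [Polynomial.map_mul, eval_mul]
  by_cases hb : (B.map σ).eval z = 0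
  · rw [hb, zero_mul]
  · have h1 := (hP k Ω D A B h p σ P f hf).2.1 z hz hb
    rw [pul_num_eval σ A B G z hb, hR _ h1, mul_zero, mul_zero]

theorem st_PUL (hD : ST_DLB) (hP : ST_PLV) : ST_PUL := by
  intro k _ _ A B h G hG i
  induction i with
  | zero => exact ⟨G, hG, fun Ω _ _ _ D f _ p _ σ P hR => hR⟩
  | succ i ih =>
    obtain ⟨G1, hG1, h1⟩ := ih
    obtain ⟨G2, hG2, h2⟩ := pul_one hP h hG1
    refine ⟨G2, hG2, ?_⟩
    intro Ω _ _ _ D f hf p _ σ P hR
    rw [Function.iterate_succ_apply] at hR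
    have hf1 : NC D (dl A B f) := ((hD k Ω D).2 A B h).1 f hf 1
    exact h2 Ω D f hf p σ P (h1 Ω D (dl A B f) hf1 p σ P hR)

end Pool.Agent.Helper18.NF
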