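import Pool.Agent.Helper82.NF.BAD

/-!
# RTF : the finite values at all places are roots of one polynomial
-/

set_option autoImplicit false

namespace Pool.Agent.Helper18.NF

open Pool.Agent.Helper14.BSC Polynomial

theorem st_RTF (hD : ST_DLB) (hP : ST_PLV) (hU : ST_PUL) (hW : ST_WND) (hR : ST_RTW)
    (hS : ST_SYS) : ST_RTF := by
  intro k Ω _ _ _ _ _ D A B h F hF hNR
  have hNC : ∀ i, NC D ((dl A B)^[i] F) := fun i => ((hD k Ω D).2 A B h).1 F hF i
  have hNRi : ∀ i j, NR D ℚ (Gm D A B ((dl A B)^[i] F) j) := by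
    intro i j
    obtain ⟨r, hr0, hr⟩ := hNR (j + i)
    obtain ⟨r', hr0', hr'⟩ := hNR i
    refine ⟨r / r', div_ne_zero hr0 hr0', ?_⟩
    have h1 : Gm D A B ((dl A B)^[i] F) j = Gm D A B F (j + i) / Gm D A B F i := by
      rw [Gm, Gm, Gm, Function.iterate_add_apply]
      have h2 := bad_B hD h hF
      have h3 := bad_B hD h (hNC i)
      field_simp
    rw [h1]
    exact fin_NRr_div hr hr'
  choose G hG0 hG using fun i => hR k Ω D A B h _ (hNC i) (hNRi i)
  choose G' hG0' hG' using fun i => hU k A B h (G i) (hG0 i) i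
  refine ⟨∏ a ∈ Finset.range (Module.finrank ℚ k + 1), G' (a * (Module.finrank ℚ k + 1)),
    Finset.prod_ne_zero_iff.2 fun a _ => hG0' _, ?_⟩
  intro p _ σ _ P hC
  obtain ⟨T, Q, i0, hσ, hval⟩ := (hS k Ω D p).2 σ P
  have hTn : T.n = Module.finrank ℚ k := T.deg
  obtain ⟨a, ha, hwin⟩ := hW T.n (fun i t => (dl A B)^[t] F ∉ (Q i).C) (by
    intro i t ht
    rw [Function.iterate_succ_apply']
    exact ((hP k Ω D A B h p (T.σ i) (Q i) _ (hNC t)).2.2.2 ht).1)
  have h1 : Rt (Q i0) ((dl A B)^[a * (T.n + 1)] F) (G (a * (T.n + 1))) := hG _ p T Q (by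
    intro i
    rcases hwin i with h2 | h2
    · exact Or.inl h2
    · right
      intro j hj
      have h3 := h2 j hj
      rw [not_not, add_comm, Function.iterate_add_apply] at h3
      exact h3) i0
  have h2 : Rt (Q i0) F (G' (a * (T.n + 1))) := hG' _ Ω D F hF p (T.σ i0) (Q i0) h1
  have h3 : fin_Val (Q i0) F (P.φ ⟨F, hC⟩) := (hval _ _).2 ⟨hC, rfl⟩
  have h4 := h2 _ h3
  rw [hσ, hTn] at h4
  rw [Polynomial.map_prod, eval_prod]
  exact Finset.prod_eq_zero (Finset.mem_range.2 (by omega)) h4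

end Pool.Agent.Helper18.NF
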