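import Pool.Agent.Helper82.NF.BAD

/-!
# RTW : the values in one window
-/

set_option autoImplicit false

namespace Pool.Agent.Helper18.NF

open Pool.Agent.Helper14.BSC Polynomial

theorem st_RTW (hD : ST_DLB) (hP : ST_PLV) (hU : ST_UNV) (hN : Pool.Agent.Helper14.BSC.ST_N1) :
    ST_RTW := by
  intro k Ω _ _ _ _ _ D A B h F hF hNR
  choose ρ hρ0 hρ using hNR
  obtain ⟨G, hG0, hG⟩ := hU k A B h ρ hρ0
  refine ⟨G, hG0, ?_⟩
  intro p _ T Q hQ i0 z0 hz0
  classical
  set I : Finset (Fin T.n) := Finset.univ.filter (fun i => F ∈ (Q i).C) with hI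
  have hmI : ∀ i, i ∈ I ↔ F ∈ (Q i).C := by
    intro i
    rw [hI, Finset.mem_filter]
    simp
  let z : Fin T.n → ℕ → ℂ_[p] := fun i j =>
    if hh : (dl A B)^[j] F ∈ (Q i).C then (Q i).φ ⟨_, hh⟩ else 0
  have hmem : ∀ i ∈ I, ∀ j, j ≤ T.n + 1 → (dl A B)^[j] F ∈ (Q i).C := by
    intro i hi j hj
    rcases hQ i with h1 | h1
    · exact absurd ((hmI i).1 hi) h1
    · exact h1 j hj
  have hz : ∀ i ∈ I, ∀ j, j ≤ T.n + 1 → fin_Val (Q i) ((dl A B)^[j] F) (z i j) := by
    intro i hi j hj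
    refine ⟨hmem i hi j hj, ?_⟩
    simp only [z]
    rw [dif_pos (hmem i hi j hj)]
  have hNC : ∀ j, NC D ((dl A B)^[j] F) := fun j => ((hD k Ω D).2 A B h).1 F hF j
  have hne : ∀ i ∈ I, ∀ j, j ≤ T.n → (B.map (T.σ i)).eval (z i j) ≠ 0 := by
    intro i hi j hj
    apply bad_ne hP h (hNC j) (hz i hi j (by omega))
    rw [← Function.iterate_succ_apply' (dl A B)]
    exact hmem i hi (j + 1) (by omega)
  have hstep : ∀ i ∈ I, ∀ j, j ≤ T.n →
      z i (j + 1) = (A.map (T.σ i)).eval (z i j) / (B.map (T.σ i)).eval (z i j) := by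
    intro i hi j hj
    have h1 := hz i hi (j + 1) (by omega)
    rw [Function.iterate_succ_apply'] at h1
    exact fin_uniq h1 ((hP k Ω D A B h p (T.σ i) (Q i) _ (hNC j)).2.1 _ (hz i hi j (by omega))
      (hne i hi j hj))
  have hprod : ∀ j, 1 ≤ j → j ≤ T.n → (∏ i ∈ I, (B.map (T.σ i)).eval (z i j)) *
        ∏ i ∈ Iᶜ, T.σ i (A.leadingCoeff / B.leadingCoeff) ^ (j * B.natDegree) =
      T.j (ρ j) * ∏ i ∈ I, (B.map (T.σ i)).eval (z i 0) := by
    intro j _ hj
    let w : Fin T.n → ℂ_[p] := fun i => if i ∈ I then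
      (B.map (T.σ i)).eval (z i j) / (B.map (T.σ i)).eval (z i 0)
      else (T.σ i (A.leadingCoeff / B.leadingCoeff) ^ B.natDegree) ^ j
    have hwI : ∀ i ∈ I, w i = (B.map (T.σ i)).eval (z i j) / (B.map (T.σ i)).eval (z i 0) := by
      intro i hi
      simp only [w]
      rw [if_pos hi]
    have hwC : ∀ i, i ∉ I → w i = (T.σ i (A.leadingCoeff / B.leadingCoeff) ^ B.natDegree) ^ j := by
      intro i hi
      simp only [w]
      rw [if_neg hi]
    have hw : ∀ i, fin_Val (Q i) (Gm D A B F j) (w i) := by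
      intro i
      by_cases hi : i ∈ I
      · rw [hwI i hi]
        exact bad_gmf hP hD h hF j (hz i hi 0 (by omega)) (hz i hi j (by omega))
          (hne i hi 0 (by omega))
      · rw [hwC i hi]
        exact bad_gm hD hP h hF (fun hc => hi ((hmI i).2 hc)) j
    have hw0 : ∀ i, w i ≠ 0 := by
      intro i
      by_cases hi : i ∈ I
      · rw [hwI i hi]
        exact div_ne_zero (hne i hi j hj) (hne i hi 0 (by omega))
      · rw [hwC i hi]
        exact pow_ne_zero _ (pow_ne_zero _ (bad_mu h))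
    have h1 := fin_N1 hN T Q (hρ0 j) (hρ j) hw hw0
    rw [← Finset.prod_mul_prod_compl I] at h1
    have h2 : ∏ i ∈ I, w i = (∏ i ∈ I, (B.map (T.σ i)).eval (z i j)) /
        ∏ i ∈ I, (B.map (T.σ i)).eval (z i 0) := by
      rw [← Finset.prod_div_distrib]
      exact Finset.prod_congr rfl fun i hi => hwI i hi
    have h3 : ∏ i ∈ Iᶜ, w i =
        ∏ i ∈ Iᶜ, T.σ i (A.leadingCoeff / B.leadingCoeff) ^ (j * B.natDegree) := by
      apply Finset.prod_congr rfl
      intro i hi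
      rw [hwC i (Finset.mem_compl.1 hi), ← pow_mul, mul_comm]
    rw [h2, h3] at h1
    have h4 : ∏ i ∈ I, (B.map (T.σ i)).eval (z i 0) ≠ 0 :=
      Finset.prod_ne_zero_iff.2 fun i hi => hne i hi 0 (by omega)
    rw [← h1]
    field_simp
  have hi0 : i0 ∈ I := (hmI i0).2 hz0.1
  have h1 := hG p T I z (fun i hi j hj => ⟨hne i hi j hj, hstep i hi j hj⟩) hprod i0 hi0
  have h2 : z i0 0 = z0 := fin_uniq (hz i0 hi0 0 (by omega)) hz0
  rw [h2] at h1
  exact h1

end Pool.Agent.Helper18.NF
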